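import Pool.Agent.H71.CR.Stmt

/-!
# Board `cwr_modules`, row MES: the replaced structure depends on the blocks in a Borel way
-/

set_option autoImplicit false

open Set Pool.Agent.TK Pool.Agent.H71.VK

namespace Pool.Agent.CR

private lemma h6_zip (l : List ℕ) : (l.zip l).map Prod.swap = dg l := by
  induction l with
  | nil => rfl
  | cons a l ih =>
    rw [List.zip_cons_cons, List.map_cons, ih]
    rfl

/-- positions depend only on the blocks which meet the list -/
private lemma h6_Ps {C : Type} [MeasurableSpace C] {ι : Type} {c0 : C} {n : Bd} {b : Rk}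
    {M : St (C × ℕ)} {B : ι → Set ℕ} {z : ι → List ℕ} {R : ι → St (C × ℕ)}
    (hRA : RA c0 n b M B z R) {T T' : Set ι} {q : List (ℕ × ℕ)}
    (h : ∀ x ∈ q, ∀ i, x.1 ∈ B i → (i ∈ T ↔ i ∈ T')) (hP : Ps M B z R T Rk.zero q) :
    Ps M B z R T' Rk.zero q := by
  classical
  obtain ⟨h1, h2, h3⟩ := hP
  refine ⟨?_, ?_, ?_⟩
  · intro x hx h4
    refine h1 x hx fun i hi hxi => ?_
    exact h4 i ((h x hx i hxi).1 hi) hxi
  · intro x hx i hi
    by_cases hiT : i ∈ T
    · exact h2 x hx i hiT
    · have h5 : x.1 ∉ B i := fun h6 => hiT ((h x hx i h6).2 hi)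
      refine ⟨fun h6 => absurd h6 h5, fun h6 => ?_⟩
      by_cases h7 : ∀ j ∈ T, x.1 ∉ B j
      · have h8 := h1 x hx h7
        rw [h8]
        exact h6
      · push Not at h7
        obtain ⟨j, hj, hxj⟩ := h7
        have h8 := (h2 x hx j hj).1 hxj
        have h9 : i = j := by
          by_contra h10
          exact Set.disjoint_left.1 (hRA.disj i j h10) h6 h8
        rw [h9] at hiT
        exact absurd hj hiT
  · intro i hi
    by_cases hiT : i ∈ T
    · exact h3 i hiT
    · have h5 : q.filter (fun x => decide (x.1 ∈ B i)) = [] := by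
        rw [List.filter_eq_nil_iff]
        intro x hx h6
        exact hiT ((h x hx i (of_decide_eq_true h6)).2 hi)
      rw [h5, List.append_nil]
      have h6 := (bf_PI (hRA.fb i).2).symm
      rw [h6_zip] at h6
      exact h6

theorem pf_MES {C : Type} [MeasurableSpace C] (_hRP0 : T_RP0 C) : T_MES C := by
  classical
  intro ι _ c0 n b M B z R hRA φ hφ
  have huniq : ∀ (i j : ι) (x : ℕ), x ∈ B i → x ∈ B j → i = j := by
    intro i j x hi hj
    by_contra h
    exact Set.disjoint_left.1 (hRA.disj i j h) hi hj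
  -- dependence on the blocks which meet the list
  have hrp : ∀ (T T' : Set ι) (l : List ℕ), (∀ x ∈ l, ∀ i, x ∈ B i → (i ∈ T ↔ i ∈ T')) →
      (rp M B z R T).2 l = (rp M B z R T').2 l := by
    intro T T' l h
    have hPs : (fun q : List (ℕ × ℕ) => q.map Prod.fst = l ∧ Ps M B z R T Rk.zero q) =
        fun q : List (ℕ × ℕ) => q.map Prod.fst = l ∧ Ps M B z R T' Rk.zero q := by
      funext q
      apply propext
      constructor
      · rintro ⟨h1, h2⟩
        refine ⟨h1, h6_Ps hRA (fun x hx i hi => ?_) h2⟩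
        exact h x.1 (by rw [← h1]; exact List.mem_map_of_mem hx) i hi
      · rintro ⟨h1, h2⟩
        refine ⟨h1, h6_Ps hRA (fun x hx i hi => ?_) h2⟩
        exact (h x.1 (by rw [← h1]; exact List.mem_map_of_mem hx) i hi).symm
    have e0 : (if h' : ∃ q : List (ℕ × ℕ), q.map Prod.fst = l ∧ Ps M B z R T Rk.zero q
          then M.2 (h'.choose.map Prod.snd) else M.2 l) =
        (if h' : ∃ q : List (ℕ × ℕ), q.map Prod.fst = l ∧ Ps M B z R T' Rk.zero q
          then M.2 (h'.choose.map Prod.snd) else M.2 l) := by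
      have key : ∀ (P Q : List (ℕ × ℕ) → Prop), P = Q →
          (if h' : ∃ q, P q then M.2 (h'.choose.map Prod.snd) else M.2 l) =
          (if h' : ∃ q, Q q then M.2 (h'.choose.map Prod.snd) else M.2 l) := by
        intro P Q hPQ
        subst hPQ
        rfl
      exact key _ _ hPs
    unfold rp
    simp only
    by_cases h1 : ∃ i ∈ T, l ≠ [] ∧ ∀ x ∈ l, x ∈ B i
    · obtain ⟨a, ha⟩ := List.exists_mem_of_ne_nil l h1.choose_spec.2.1
      have h2 : ∃ i ∈ T', l ≠ [] ∧ ∀ x ∈ l, x ∈ B i := by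
        obtain ⟨i, hi, hl, hxi⟩ := h1
        exact ⟨i, (h a ha i (hxi a ha)).1 hi, hl, hxi⟩
      have e : h1.choose = h2.choose :=
        huniq _ _ a (h1.choose_spec.2.2 a ha) (h2.choose_spec.2.2 a ha)
      rw [dif_pos h1, dif_pos h2, e]
    · have h2 : ¬ ∃ i ∈ T', l ≠ [] ∧ ∀ x ∈ l, x ∈ B i := by
        rintro ⟨i, hi, hl, hxi⟩
        obtain ⟨a, ha⟩ := List.exists_mem_of_ne_nil l hl
        exact h1 ⟨i, (h a ha i (hxi a ha)).2 hi, hl, hxi⟩
      rw [dif_neg h1, dif_neg h2]
      exact e0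
  refine Measurable.prodMk measurable_const (measurable_pi_lambda _ fun l => ?_)
  let I0 : Set ι := {i | ∃ x ∈ l, x ∈ B i}
  have hI0 : I0.Finite := by
    have h1 : I0 = ⋃ x ∈ {x | x ∈ l}, {i | x ∈ B i} := by
      ext i
      simp [I0]
    rw [h1]
    refine Set.Finite.biUnion (List.finite_toSet l) fun x _ => ?_
    exact Set.Subsingleton.finite fun i hi j hj => huniq i j x hi hj
  have : Finite I0 := hI0
  let g : (ℕ → Bool) → (I0 → Bool) := fun y i => decide ((i : ι) ∈ φ y)
  let G : (I0 → Bool) → C × ℕ := fun s => (rp M B z R {i | ∃ h : i ∈ I0, s ⟨i, h⟩ = true}).2 l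
  have hg : Measurable g := by
    refine measurable_pi_lambda _ fun i => ?_
    apply measurable_to_bool
    have : (fun y => decide ((i : ι) ∈ φ y)) ⁻¹' {true} = {y | (i : ι) ∈ φ y} := by
      ext y
      simp
    rw [this]
    exact hφ i
  have hG : Measurable G := measurable_of_countable G
  have he : (fun y => (rp M B z R (φ y)).2 l) = G ∘ g := by
    funext y
    change (rp M B z R (φ y)).2 l = (rp M B z R {i | ∃ h : i ∈ I0, g y ⟨i, h⟩ = true}).2 l
    apply hrp
    intro x hx i hxi
    have hi : i ∈ I0 := ⟨x, hx, hxi⟩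
    constructor
    · intro h
      exact ⟨hi, by simpa [g] using h⟩
    · rintro ⟨_, h⟩
      simpa [g] using h
  change Measurable (fun y => (rp M B z R (φ y)).2 l)
  rw [he]
  exact hG.comp hg

end Pool.Agent.CR
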